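import Mathlib
import Pool.Agent.N290.RJ.Stm
import Pool.Agent.N290.RJ.Un
import Pool.Agent.N290.RJ.Sm

/-!
# Project RK: arbitrary functions in the corona problem on the ball: statements of the parts
-/

set_option autoImplicit false

open Complex MeasureTheory Set Filter Topology
open scoped ENNReal

namespace Pool.Agent.N290.RK

open Pool.Agent.N290.RJ

/-- regularisation of slowly varying functions -/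
def R1 : Prop := ∀ K : ℝ, 1 ≤ K → ∃ C : ℝ, 0 < C ∧ ∀ ω : ℝ → ℝ, Slow K ω → ∃ h : ℝ → ℝ,
  ContDiffOn ℝ 1 h (Ioi 0) ∧ (∀ s t, 0 < s → s ≤ t → h s ≤ h t) ∧
  (∀ t, 0 < t → t ≤ 1 → ω t ≤ h t ∧ h t ≤ C * ω t) ∧
  ∀ t, 0 < t → t ≤ 1 → |t * deriv h t| ≤ C * h t

/-- cut-off functions on the plane -/
def R2 : Prop := ∀ ε₁ ε₂ : ℝ, 0 < ε₁ → ε₁ < ε₂ → ∃ (φ : ℂ → ℝ) (L : ℝ), ContDiff ℝ 2 φ ∧ 0 < L ∧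
  (∀ w, 0 ≤ φ w ∧ φ w ≤ 1) ∧ (∀ w, ‖w‖ ≤ ε₁ → φ w = 1) ∧ (∀ w, ε₂ ≤ ‖w‖ → φ w = 0) ∧
  (∀ w, ‖fderiv ℝ φ w‖ ≤ L) ∧ ∀ w, ‖fderiv ℝ (fderiv ℝ φ) w‖ ≤ L

/-- the derivative `∂φ/∂w` -/
noncomputable def dw (φ : ℂ → ℝ) (w : ℂ) : ℂ := ((fderiv ℝ φ w 1 : ℂ) - I * (fderiv ℝ φ w I : ℂ)) / 2

/-- `λ = φ² + a²` -/
noncomputable def lam (φ : ℂ → ℝ) (w : ℂ) (a : ℝ) : ℝ := φ w ^ 2 + a ^ 2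

/-- `p = ∂ log λ / ∂w` -/
noncomputable def pp (φ : ℂ → ℝ) (w : ℂ) (a : ℝ) : ℂ := 2 * (φ w : ℂ) * dw φ w / (lam φ w a : ℂ)

/-- the Lipschitz estimates for `λ` and `p` (`q` is `(w, a)`) -/
def R3a : Prop := ∀ (φ : ℂ → ℝ) (L : ℝ), ContDiff ℝ 2 φ → 0 < L → (∀ w, 0 ≤ φ w ∧ φ w ≤ 1) →
  (∀ w, ‖fderiv ℝ φ w‖ ≤ L) → (∀ w, ‖fderiv ℝ (fderiv ℝ φ) w‖ ≤ L) →
  ContDiff ℝ 1 (dw φ) ∧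
  ContDiffOn ℝ 1 (fun q : ℂ × ℝ => pp φ q.1 q.2) {q | 0 < q.2} ∧
  (∀ w w' a a', 0 < a' → a' ≤ a →
    lam φ w' a' ≤ lam φ w a * (1 + L * ‖w' - w‖ / a) ^ 2) ∧
  (∀ w a, 0 < a → ‖pp φ w a‖ * φ w ≤ 2 * L ∧ ‖pp φ w a‖ * Real.sqrt (lam φ w a) ≤ 2 * L ∧
    ‖2 * (φ w : ℂ) * dw φ w‖ ≤ 2 * L * Real.sqrt (lam φ w a)) ∧
  (∀ w w' a a', 0 < a' → a' ≤ a → lam φ w' a' ≤ 2 * lam φ w a →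
    lam φ w' a' * ‖pp φ w' a' - pp φ w a‖ ≤ 20 * (1 + L) ^ 2 * (‖w' - w‖ + (a - a'))) ∧
  (∀ w a, 0 < a → ∀ (η : ℂ) (b : ℝ),
    lam φ w a * ‖fderiv ℝ (fun q : ℂ × ℝ => pp φ q.1 q.2) (w, a) (η, b)‖ ≤
      20 * (1 + L) ^ 2 * (‖η‖ + |b|))

variable {d : ℕ}

/-- step length -/
noncomputable def st (k : ℕ) (z : E d) : ℝ :=
  (rad (k + 1) - rad k) * nm z / (1 - rad (k + 1) * nm z)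

/-- **the functions with prescribed modulus** -/
def XC (d : ℕ) : Prop := ∀ K ε₁ ε₃ : ℝ, 1 ≤ K → 0 < ε₁ → ε₁ < ε₃ → ∃ C : ℝ, 0 < C ∧
  ∀ (f : E d → ℂ) (ω : ℝ → ℝ), DifferentiableOn ℂ f (B d) → (∀ z ∈ B d, ‖f z‖ ≤ 1) →
  Slow K ω → (∀ t, 0 < t → 0 < ω t) →
  (∀ z ∈ B d, ∀ ξ, ‖fderiv ℂ f z ξ‖ ≤ ω (1 - N z) * len z ξ) →
  ∃ X P : ℕ → E d → ℂ, ∀ k, ContDiffOn ℝ 1 (X k) (B d) ∧ ContDiffOn ℝ 1 (P k) (B d) ∧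
    ∀ z ∈ B d, ‖X k z‖ ≤ C ∧ ‖P k z‖ ≤ C ∧ (ε₃ ≤ ‖f (rad k • z)‖ → X k z = 0) ∧
      (‖f (rad k • z)‖ ≤ ε₁ → 1 ≤ ‖X k z‖) ∧
      ‖P (k + 1) z - P k z‖ ≤ C * ω (1 - N z) * (st k z / uu z (rad k)) ∧ ∀ ξ,
      ‖db (X k) z ξ‖ ≤ C * ω (1 - N z) ^ 2 * len z ξ ∧
      ‖db (fun w => starRingEnd ℂ (X k w)) z ξ -
        P k z * starRingEnd ℂ (fderiv ℂ f (rad k • z) (rad k • ξ))‖ ≤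
        C * ω (1 - N z) ^ 2 * len z ξ ∧
      ‖fderiv ℝ (P k) z ξ‖ ≤ C * ω (1 - N z) * uu z (rad k) ^ 2 * len z ξ

/-- **small solutions near the boundary** -/
def SS (d : ℕ) : Prop := ∀ (K C₁ η : ℝ) (ω : ℝ → ℝ), 1 ≤ K → 0 < C₁ → 0 < η → Slow K ω →
  (∀ t, 0 < t → 0 < ω t) → Tendsto ω (𝓝[>] 0) (𝓝 0) → ∃ τ C₂ : ℝ, 0 < τ ∧ 0 < C₂ ∧
  ∀ (f : E d → ℂ) (P : ℕ → E d → ℂ), DifferentiableOn ℂ f (B d) →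
  (∀ z ∈ B d, ∀ ξ, ‖fderiv ℂ f z ξ‖ ≤ ω (1 - N z) * len z ξ) →
  (∀ k, ContDiffOn ℝ 1 (P k) (B d)) →
  (∀ k, ∀ z ∈ B d, ‖P k z‖ ≤ C₁ ∧
    ‖P (k + 1) z - P k z‖ ≤ C₁ * ω (1 - N z) * (st k z / uu z (rad k)) ∧
    ∀ ξ, ‖fderiv ℝ (P k) z ξ‖ ≤ C₁ * ω (1 - N z) * uu z (rad k) ^ 2 * len z ξ) →
  ∀ k, ∃ v : E d → ℂ, ContDiffOn ℝ 1 v {z | z ∈ B d ∧ 1 - nm z < τ} ∧
    ∀ z ∈ B d, 1 - nm z < τ → ‖v z‖ ≤ η ∧ ∀ ξ,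
      ‖db v z ξ - P k z * starRingEnd ℂ (fderiv ℂ f (rad k • z) (rad k • ξ))‖ ≤
        C₂ * ω (1 - N z) ^ 2 * len z ξ

/-- **approximation by holomorphic functions near a boundary point** -/
def LAL (d : ℕ) : Prop := ∀ (C R K : ℝ) (ω : ℝ → ℝ), 0 < C → 0 < R → 1 ≤ K → Slow K ω →
  ∫⁻ t in Ioo (0 : ℝ) 1, ENNReal.ofReal (ω t ^ 2 / t) ≠ ⊤ →
  ∀ η : ℝ, 0 < η → ∃ ρ : ℝ, 0 < ρ ∧ ∀ p : E d, N p = 1 → ∀ h : E d → ℂ,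
    ContDiffOn ℝ 1 h {z | z ∈ B d ∧ nm (z - p) < R} →
    (∀ z ∈ B d, nm (z - p) < R → ‖h z‖ ≤ C) →
    (∀ z ∈ B d, nm (z - p) < R → ∀ ξ, ‖db h z ξ‖ ≤ C * ω (1 - N z) ^ 2 * len z ξ) →
    ∃ H : E d → ℂ, DifferentiableOn ℂ H (B d) ∧
      ∀ z ∈ B d, nm (z - p) < ρ → ‖H z - h z‖ ≤ η

/-- a tail estimate -/
def TL (d : ℕ) : Prop := ∀ (K : ℝ) (ω : ℝ → ℝ), 1 ≤ K → Slow K ω →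
  ∫⁻ t in Ioo (0 : ℝ) 1, ENNReal.ofReal (ω t ^ 2 / t) ≠ ⊤ →
  ∀ η : ℝ, 0 < η → ∃ κ : ℝ, 0 < κ ∧ ∀ z ∈ B d,
    ∫⁻ w in B d, ENNReal.ofReal ((if 1 - N w ≤ κ then ω (1 - N w) ^ 2 else 0) * ker z w) ≤
      ENNReal.ofReal η

end Pool.Agent.N290.RK
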