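import Mathlib
import Pool.Agent.N290.RK.Stm
import Pool.Agent.N290.RJ.Alg

/-!
# Project RK: the local and the global theorems, statements
-/

set_option autoImplicit false

open Complex MeasureTheory Set Filter Topology
open scoped ENNReal

namespace Pool.Agent.N290.RK

open Pool.Agent.N290.RJ

variable {d : ℕ}

/-- arbitrary functions `G l`, solvable where the `f j` are small -/
structure Arb {M L : ℕ} (ε A : ℝ) (f : Fin M → E d → ℂ) (G κ : Fin L → E d → ℂ) : Prop where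
  f1 : ∀ j, DifferentiableOn ℂ (f j) (B d)
  f2 : ∀ j, ∀ z ∈ B d, ‖f j z‖ ≤ 1
  g1 : ∀ l, DifferentiableOn ℂ (G l) (B d)
  g2 : ∀ l, ∀ z ∈ B d, ‖G l z‖ ≤ 1
  k1 : ∀ l, DifferentiableOn ℂ (κ l) {z | z ∈ B d ∧ ∀ j, ‖f j z‖ < ε}
  k2 : ∀ l, ∀ z ∈ B d, (∀ j, ‖f j z‖ < ε) → ‖κ l z‖ ≤ A
  k3 : ∀ z ∈ B d, (∀ j, ‖f j z‖ < ε) → ∑ l, G l z * κ l z = 1

/-- solvability of the Bezout equation with bound `C` -/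
def Sol {M L : ℕ} (C : ℝ) (f : Fin M → E d → ℂ) (G : Fin L → E d → ℂ) : Prop :=
  ∃ (g : Fin M → E d → ℂ) (h : Fin L → E d → ℂ), (∀ j, DifferentiableOn ℂ (g j) (B d)) ∧
    (∀ l, DifferentiableOn ℂ (h l) (B d)) ∧ ∀ z ∈ B d, (∀ j, ‖g j z‖ ≤ C) ∧
    (∀ l, ‖h l z‖ ≤ C) ∧ ∑ j, f j z * g j z + ∑ l, G l z * h l z = 1

/-- local solutions for dilated data -/
def LT (d : ℕ) : Prop := ∀ (M L : ℕ) (ε A K : ℝ) (ω : ℝ → ℝ), 0 < ε → 1 ≤ K → Slow K ω →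
  (∀ t, 0 < t → 0 < ω t) → ∫⁻ t in Ioo (0 : ℝ) 1, ENNReal.ofReal (ω t ^ 2 / t) ≠ ⊤ →
  ∃ C ρ : ℝ, 0 < ρ ∧ ∀ p : E d, N p = 1 → ∀ (f : Fin M → E d → ℂ) (G κ : Fin L → E d → ℂ),
  Arb ε A f G κ → (∀ j, ∀ z ∈ B d, ∀ ξ, ‖fderiv ℂ (f j) z ξ‖ ≤ ω (1 - N z) * len z ξ) →
  ∀ k : ℕ, ∃ (g : Fin M → E d → ℂ) (h : Fin L → E d → ℂ),
    (∀ j, DifferentiableOn ℂ (g j) {z | z ∈ B d ∧ nm (z - p) < ρ}) ∧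
    (∀ l, DifferentiableOn ℂ (h l) {z | z ∈ B d ∧ nm (z - p) < ρ}) ∧
    ∀ z ∈ B d, nm (z - p) < ρ → (∀ j, ‖g j z‖ ≤ C) ∧ (∀ l, ‖h l z‖ ≤ C) ∧
      ∑ j, f j (rad k • z) * g j z + ∑ l, G l (rad k • z) * h l z = 1

/-- global solutions, slowly varying majorant of the invariant gradient -/
def GlB (d : ℕ) : Prop := ∀ (M L : ℕ) (ε A K : ℝ) (ω : ℝ → ℝ), 0 < ε → 1 ≤ K → Slow K ω →
  (∀ t, 0 < t → 0 < ω t) → ∫⁻ t in Ioo (0 : ℝ) 1, ENNReal.ofReal (ω t ^ 2 / t) ≠ ⊤ →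
  ∃ C : ℝ, ∀ (f : Fin M → E d → ℂ) (G κ : Fin L → E d → ℂ), Arb ε A f G κ →
  (∀ j, ∀ z ∈ B d, ∀ ξ, ‖fderiv ℂ (f j) z ξ‖ ≤ ω (1 - N z) * len z ξ) → Sol C f G

/-- global solutions, radial modulus -/
def GlR (d : ℕ) : Prop := ∀ (M L : ℕ) (ε A : ℝ) (ω : ℝ → ℝ), 0 < ε → SDM ω →
  ∃ C : ℝ, ∀ (f : Fin M → E d → ℂ) (G κ : Fin L → E d → ℂ), Arb ε A f G κ →
  (∀ j, ∀ z ∈ B d, (1 - nm z) * ‖fderiv ℂ (f j) z z‖ ≤ ω (1 - nm z)) → Sol C f G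

/-- global solutions, uniform closure -/
def GlC (d : ℕ) : Prop := ∀ (M L : ℕ) (ε A : ℝ) (W : ℝ → ℝ → ℝ), 0 < ε →
  (∀ η : ℝ, 0 < η → SDM (W η)) →
  ∃ C : ℝ, ∀ (f : Fin M → E d → ℂ) (G κ : Fin L → E d → ℂ), Arb ε A f G κ →
  (∀ j, ∀ η : ℝ, 0 < η → ∃ s : E d → ℂ, DifferentiableOn ℂ s (B d) ∧
      (∀ z ∈ B d, (1 - nm z) * ‖fderiv ℂ s z z‖ ≤ W η (1 - nm z)) ∧
      ∀ z ∈ B d, ‖f j z - s z‖ ≤ η) → Sol C f G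

end Pool.Agent.N290.RK
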