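import Mathlib
import Pool.Agent.N290.RK.Stm3

/-!
# Project RK: the local form of the theorem
-/

set_option autoImplicit false

open Complex MeasureTheory Set Filter Topology
open scoped ENNReal

namespace Pool.Agent.N290.RK

open Pool.Agent.N290.RJ

/-- the local theorem: near every boundary point some of the functions (`j ∈ J`) are approximable
by functions with square Dini modulus, the others are arbitrary functions which are solvable where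
the first ones are small -/
def GlP (d : ℕ) : Prop := ∀ (M : ℕ) (δ : ℝ) (ι : Type) (F : ι → Fin M → E d → ℂ), 0 < δ →
  (∀ a j, DifferentiableOn ℂ (F a j) (B d)) → (∀ a j, ∀ z ∈ B d, ‖F a j z‖ ≤ 1) →
  (∀ a, ∀ z ∈ B d, δ ≤ ∑ j, ‖F a j z‖) →
  (∀ p : E d, N p = 1 → ∃ (J : Finset (Fin M)) (ε A : ℝ) (W : ℝ → ℝ → ℝ) (Q R : ℝ → ℝ),
    0 < ε ∧ (∀ η : ℝ, 0 < η → SDM (W η) ∧ 0 < R η) ∧
    ∀ a, (∀ j ∈ J, ∀ η : ℝ, 0 < η → ∃ s : E d → ℂ, DifferentiableOn ℂ s (B d) ∧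
        (∀ z ∈ B d, ‖s z‖ ≤ Q η) ∧
        (∀ z ∈ B d, (1 - nm z) * ‖fderiv ℂ s z z‖ ≤ W η (1 - nm z)) ∧
        ∀ z ∈ B d, nm (z - p) < R η → ‖F a j z - s z‖ ≤ η) ∧
      ∃ κ : Fin M → E d → ℂ,
        (∀ l, DifferentiableOn ℂ (κ l) {z | z ∈ B d ∧ nm (z - p) < ε ∧ ∀ j ∈ J, ‖F a j z‖ < ε}) ∧
        ∀ z ∈ B d, nm (z - p) < ε → (∀ j ∈ J, ‖F a j z‖ < ε) →
          (∀ l, ‖κ l z‖ ≤ A) ∧ ∑ l ∈ Jᶜ, F a l z * κ l z = 1) →
  ∃ C : ℝ, ∀ a, ∃ g : Fin M → E d → ℂ, (∀ j, DifferentiableOn ℂ (g j) (B d)) ∧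
    ∀ z ∈ B d, (∀ j, ‖g j z‖ ≤ C) ∧ ∑ j, F a j z * g j z = 1

end Pool.Agent.N290.RK
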