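import Mathlib
import Pool.Agent.N290.RK.Stm

/-!
# Project RK: the parts of the construction of functions with prescribed modulus
-/

set_option autoImplicit false

open Complex MeasureTheory Set Filter Topology
open scoped ENNReal

namespace Pool.Agent.N290.RK

open Pool.Agent.N290.RJ

variable {d : ℕ}

/-- the data of the construction -/
structure Dat (d : ℕ) (K C A L ε₂ : ℝ) (φ χ : ℂ → ℝ) (h ω : ℝ → ℝ) (f : E d → ℂ) : Prop where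
  hK : 1 ≤ K
  hC : 1 ≤ C
  hL : 1 ≤ L
  hA : 256 * L ≤ A
  slow : Slow K ω
  pos : ∀ t, 0 < t → 0 < ω t
  h1 : ContDiffOn ℝ 1 h (Ioi 0)
  h2 : ∀ s t, 0 < s → s ≤ t → h s ≤ h t
  h3 : ∀ t, 0 < t → t ≤ 1 → ω t ≤ h t ∧ h t ≤ C * ω t
  h4 : ∀ t, 0 < t → t ≤ 1 → |t * deriv h t| ≤ C * h t
  φ1 : ContDiff ℝ 2 φ
  φ2 : ∀ w, 0 ≤ φ w ∧ φ w ≤ 1
  φ3 : ∀ w, ‖fderiv ℝ φ w‖ ≤ L
  φ4 : ∀ w, ‖fderiv ℝ (fderiv ℝ φ) w‖ ≤ L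
  φ5 : ∀ w, ε₂ ≤ ‖w‖ → φ w = 0
  χ1 : ContDiff ℝ 2 χ
  χ2 : ∀ w, 0 ≤ χ w ∧ χ w ≤ 1
  χ3 : ∀ w, ‖fderiv ℝ χ w‖ ≤ L
  χ5 : ∀ w, ‖w‖ ≤ ε₂ → χ w = 1
  f1 : DifferentiableOn ℂ f (B d)
  f2 : ∀ z ∈ B d, ‖f z‖ ≤ 1
  f3 : ∀ z ∈ B d, ∀ ξ, ‖fderiv ℂ f z ξ‖ ≤ ω (1 - N z) * len z ξ

/-- the regularised weight on the sphere of radius `rad j` -/
noncomputable def al (A : ℝ) (h : ℝ → ℝ) (j : ℕ) (z : E d) : ℝ := A * h (1 - N (rad j • z))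

/-- `λ_j` -/
noncomputable def lj (φ : ℂ → ℝ) (A : ℝ) (h : ℝ → ℝ) (f : E d → ℂ) (j : ℕ) (z : E d) : ℝ :=
  lam φ (f (rad j • z)) (al A h j z)

/-- `p_j` -/
noncomputable def pj (φ : ℂ → ℝ) (A : ℝ) (h : ℝ → ℝ) (f : E d → ℂ) (j : ℕ) (z : E d) : ℂ :=
  pp φ (f (rad j • z)) (al A h j z)

/-- the phase `S_j` -/
noncomputable def Sj (φ : ℂ → ℝ) (A : ℝ) (h : ℝ → ℝ) (f : E d → ℂ) : ℕ → E d → ℝ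
  | 0 => fun _ => 0
  | j + 1 => fun z => Sj φ A h f j z + 2 * (pj φ A h f j z * (f (rad (j + 1) • z) -
      f (rad j • z))).im

/-- the differential of `f (rad j • z)` -/
noncomputable def xj (f : E d → ℂ) (j : ℕ) (z ξ : E d) : ℂ := fderiv ℂ f (rad j • z) (rad j • ξ)

/-- estimates of the weight -/
def XA (d : ℕ) : Prop := ∀ (K C A : ℝ) (h ω : ℝ → ℝ), 1 ≤ K → 1 ≤ C → 0 < A → Slow K ω →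
  (∀ t, 0 < t → 0 < ω t) → ContDiffOn ℝ 1 h (Ioi 0) → (∀ s t, 0 < s → s ≤ t → h s ≤ h t) →
  (∀ t, 0 < t → t ≤ 1 → ω t ≤ h t ∧ h t ≤ C * ω t) →
  (∀ t, 0 < t → t ≤ 1 → |t * deriv h t| ≤ C * h t) → ∀ j : ℕ,
  ContDiffOn ℝ 1 (al (d := d) A h j) (B d) ∧ ∀ z ∈ B d, 0 < al A h j z ∧
    A * ω (1 - N z) ≤ al A h j z ∧ al A h j z ≤ A * C * K * (ω (1 - N z) / uu z (rad j)) ∧
    al A h j z ≤ A * C ∧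
    al A h (j + 1) z ≤ al A h j z ∧
    al A h j z - al A h (j + 1) z ≤ 2 * A * C ^ 2 * K * (ω (1 - N z) / uu z (rad j)) * st j z ∧
    ∀ ξ, |fderiv ℝ (al (d := d) A h j) z ξ| ≤
      4 * A * C ^ 2 * K * ω (1 - N z) * uu z (rad j) ^ 7 * len z ξ

/-- estimates of `f (rad j • z)` -/
def XF (d : ℕ) : Prop := ∀ (K C A L ε₂ : ℝ) (φ χ : ℂ → ℝ) (h ω : ℝ → ℝ) (f : E d → ℂ),
  Dat d K C A L ε₂ φ χ h ω f → ∀ j : ℕ, ∀ z ∈ B d,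
    0 ≤ st j z ∧ st j z ≤ 1 ∧ 0 < uu z (rad j) ∧ uu z (rad j) ≤ 1 ∧
    uu z (rad (j + 1)) ^ 8 = uu z (rad j) ^ 8 * (1 + st j z) ∧
    uu z (rad (j + 1)) ≤ 2 * uu z (rad j) ∧
    ‖f (rad (j + 1) • z) - f (rad j • z)‖ ≤ al A h j z / A * st j z ∧
    ‖f (rad (j + 1) • z) - f (rad j • z)‖ ≤ K * (ω (1 - N z) / uu z (rad j)) * st j z ∧
    ∀ ξ, ‖xj f j z ξ‖ ≤ 3 / 2 * K * ω (1 - N z) * uu z (rad j) ^ 3 * len z ξ ∧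
      fderiv ℝ (fun w => f (rad j • w)) z ξ = xj f j z ξ ∧
      db (fun w => f (rad j • w)) z ξ = 0 ∧
      db (fun w => starRingEnd ℂ (f (rad j • w))) z ξ = starRingEnd ℂ (xj f j z ξ)

/-- estimates of `λ_j` and `p_j` -/
def XP (d : ℕ) : Prop := ∀ K C A L : ℝ, ∃ C₁ : ℝ, 0 < C₁ ∧ ∀ (ε₂ : ℝ) (φ χ : ℂ → ℝ)
  (h ω : ℝ → ℝ) (f : E d → ℂ), Dat d K C A L ε₂ φ χ h ω f → ∀ j : ℕ,
  ContDiffOn ℝ 1 (pj φ A h f j) (B d) ∧ ContDiffOn ℝ 1 (lj φ A h f j) (B d) ∧ ∀ z ∈ B d,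
    0 < lj φ A h f j z ∧
    lj φ A h f (j + 1) z ≤ (1 + st j z / 64) * lj φ A h f j z ∧
    lj φ A h f (j + 1) z * ‖pj φ A h f (j + 1) z - pj φ A h f j z‖ ≤
      C₁ * (ω (1 - N z) / uu z (rad j)) * st j z ∧
    ∀ ξ, lj φ A h f j z * ‖fderiv ℝ (pj φ A h f j) z ξ‖ ≤
        C₁ * ω (1 - N z) * uu z (rad j) ^ 3 * len z ξ ∧
      ‖db (fun w => (lj φ A h f j w : ℂ)) z ξ -
        (lj φ A h f j z : ℂ) * starRingEnd ℂ (pj φ A h f j z * xj f j z ξ)‖ ≤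
        C₁ * ω (1 - N z) ^ 2 * len z ξ

/-- estimates of the phase -/
def XS (d : ℕ) : Prop := ∀ K C A L : ℝ, ∃ C₂ : ℝ, 0 < C₂ ∧ ∀ (ε₂ : ℝ) (φ χ : ℂ → ℝ)
  (h ω : ℝ → ℝ) (f : E d → ℂ), Dat d K C A L ε₂ φ χ h ω f → ∀ j : ℕ,
  ContDiffOn ℝ 1 (Sj φ A h f j) (B d) ∧ ∀ z ∈ B d, ∀ ξ,
    lj φ A h f j z * ‖db (fun w => (Sj φ A h f j w : ℂ)) z ξ -
      I * starRingEnd ℂ (pj φ A h f j z * xj f j z ξ)‖ ≤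
      C₂ * ω (1 - N z) ^ 2 * uu z (rad j) ^ 2 * len z ξ

/-- the functions `X_j = λ_j χ(F_j) exp(i S_j)` -/
noncomputable def Xj (φ χ : ℂ → ℝ) (A : ℝ) (h : ℝ → ℝ) (f : E d → ℂ) (j : ℕ) (z : E d) : ℂ :=
  (lj φ A h f j z : ℂ) * (χ (f (rad j • z)) : ℂ) * exp (I * (Sj φ A h f j z : ℂ))

/-- the functions `P_j = 4 φ(F_j) conj(φ_w(F_j)) exp(-i S_j)` -/
noncomputable def Pj (φ : ℂ → ℝ) (A : ℝ) (h : ℝ → ℝ) (f : E d → ℂ) (j : ℕ) (z : E d) : ℂ :=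
  4 * (φ (f (rad j • z)) : ℂ) * starRingEnd ℂ (dw φ (f (rad j • z))) *
    exp (-(I * (Sj φ A h f j z : ℂ)))

/-- estimates of `X_j` -/
def XX (d : ℕ) : Prop := ∀ K C A L : ℝ, ∃ C₃ : ℝ, 0 < C₃ ∧ ∀ (ε₂ : ℝ) (φ χ : ℂ → ℝ)
  (h ω : ℝ → ℝ) (f : E d → ℂ), Dat d K C A L ε₂ φ χ h ω f → ∀ j : ℕ,
  ContDiffOn ℝ 1 (Xj φ χ A h f j) (B d) ∧ ∀ z ∈ B d, ‖Xj φ χ A h f j z‖ ≤ C₃ ∧ ∀ ξ,
    ‖db (Xj φ χ A h f j) z ξ‖ ≤ C₃ * ω (1 - N z) ^ 2 * len z ξ ∧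
    ‖db (fun w => starRingEnd ℂ (Xj φ χ A h f j w)) z ξ -
      Pj φ A h f j z * starRingEnd ℂ (xj f j z ξ)‖ ≤ C₃ * ω (1 - N z) ^ 2 * len z ξ

/-- estimates of `P_j` -/
def XQ (d : ℕ) : Prop := ∀ K C A L : ℝ, ∃ C₃ : ℝ, 0 < C₃ ∧ ∀ (ε₂ : ℝ) (φ χ : ℂ → ℝ)
  (h ω : ℝ → ℝ) (f : E d → ℂ), Dat d K C A L ε₂ φ χ h ω f → ∀ j : ℕ,
  ContDiffOn ℝ 1 (Pj φ A h f j) (B d) ∧ ∀ z ∈ B d, ‖Pj φ A h f j z‖ ≤ C₃ ∧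
    ‖Pj φ A h f (j + 1) z - Pj φ A h f j z‖ ≤ C₃ * ω (1 - N z) * (st j z / uu z (rad j)) ∧
    ∀ ξ, ‖fderiv ℝ (Pj φ A h f j) z ξ‖ ≤ C₃ * ω (1 - N z) * uu z (rad j) ^ 2 * len z ξ

end Pool.Agent.N290.RK
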