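import Mathlib
import Pool.Agent.N290.RK.Stm4
import Pool.Agent.N290.RJ.All
import Pool.Agent.N250.RK.R1
import Pool.Agent.N401.RK.R2
import Pool.Agent.N427.RK.R3a
import Pool.Agent.N327.RK.XA
import Pool.Agent.N558.RK.XF
import Pool.Agent.N966.RK.XP
import Pool.Agent.N914.RK.XS
import Pool.Agent.N617.RK.XX
import Pool.Agent.N833.RK.XQ
import Pool.Agent.N692.RK.SS
import Pool.Agent.N458.RK.TL
import Pool.Agent.N602.RK.LAL
import Pool.Agent.N40.RK.XC
import Pool.Agent.N301.RK.GLR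
import Pool.Agent.N359.RK.GLC

/-!
# Project RK: all parts put together
-/

set_option autoImplicit false

namespace Pool.Agent.N290.RK

open Pool.Agent.N290.RJ

theorem b_XP (d : ℕ) : XP d := Pool.Agent.N966.RK.XP_of d Pool.Agent.N427.RK.R3a_proof
  (Pool.Agent.N327.RK.XA_proof d) (Pool.Agent.N558.RK.XF_proof d)

theorem b_XS (d : ℕ) : XS d := Pool.Agent.N914.RK.XS_of d (Pool.Agent.N558.RK.XF_proof d) (b_XP d)

theorem b_XX (d : ℕ) : XX d := Pool.Agent.N617.RK.XX_of d Pool.Agent.N427.RK.R3a_proof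
  (Pool.Agent.N327.RK.XA_proof d) (Pool.Agent.N558.RK.XF_proof d) (b_XP d) (b_XS d)

theorem b_XQ (d : ℕ) : XQ d := Pool.Agent.N833.RK.XQ_of d Pool.Agent.N427.RK.R3a_proof
  (Pool.Agent.N327.RK.XA_proof d) (Pool.Agent.N558.RK.XF_proof d) (b_XP d) (b_XS d)

theorem b_XC (d : ℕ) : XC d := Pool.Agent.N40.RK.XC_of d Pool.Agent.N250.RK.R1_proof
  Pool.Agent.N401.RK.R2_proof (Pool.Agent.N558.RK.XF_proof d) (b_XX d) (b_XQ d)

theorem b_SS (d : ℕ) : SS d := Pool.Agent.N692.RK.SS_of d (a_S1 d) (a_S2 d) (a_S3 d)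

theorem b_LAL (d : ℕ) : LAL d := Pool.Agent.N602.RK.LAL_of d (a_Cmain d) (a_C9 d)
  (Pool.Agent.N458.RK.TL_of d (a_C9 d))

end Pool.Agent.N290.RK
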