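import Mathlib
import Pool.Agent.N290.RK.Stm3
import Pool.Agent.N290.RJ.Stm

/-!
# From local to global solvability
-/

set_option autoImplicit false

open Complex MeasureTheory Set Filter Topology
open scoped ENNReal

namespace Pool.Agent.N290.RK

open Pool.Agent.N290.RJ

theorem GlB_of' (d : ℕ) (hT : LT d) (h4 : D4N d) (hL : LOC d) : GlB d := by
  intro M L ε A K ω hε hK hω hpos hint
  obtain ⟨C, ρ, hρ, hT⟩ := hT M L ε A K ω hε hK hω hpos hint
  have hA1 : 0 < |A| + 1 := by positivity
  obtain ⟨C', hC'⟩ := hL (M + L) (min ε (1 / (|A| + 1)))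
    {q : (Fin M → E d → ℂ) × (Fin L → E d → ℂ) × (Fin L → E d → ℂ) // Arb ε A q.1 q.2.1 q.2.2 ∧
      ∀ j, ∀ z ∈ B d, ∀ ξ, ‖fderiv ℂ (q.1 j) z ξ‖ ≤ ω (1 - N z) * len z ξ}
    (fun q => Fin.append q.1.1 q.1.2.1) (lt_min hε (by positivity))
    (by
      rintro ⟨⟨f, G, κ⟩, hA, hf⟩ j
      refine Fin.addCases (fun i => ?_) (fun i => ?_) j
      · simpa only [Fin.append_left] using hA.f1 i
      · simpa only [Fin.append_right] using hA.g1 i)
    (by
      rintro ⟨⟨f, G, κ⟩, hA, hf⟩ j
      refine Fin.addCases (fun i => ?_) (fun i => ?_) j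
      · simpa only [Fin.append_left] using hA.f2 i
      · simpa only [Fin.append_right] using hA.g2 i)
    (by
      rintro ⟨⟨f, G, κ⟩, hA, hf⟩ z hz
      simp only [Fin.sum_univ_add, Fin.append_left, Fin.append_right]
      have hs1 : 0 ≤ ∑ i, ‖f i z‖ := Finset.sum_nonneg fun i _ => norm_nonneg _
      have hs2 : 0 ≤ ∑ i, ‖G i z‖ := Finset.sum_nonneg fun i _ => norm_nonneg _
      by_cases hsm : ∀ j, ‖f j z‖ < ε
      · have h1 := hA.k3 z hz hsm
        have h2 : (1 : ℝ) ≤ ∑ l, ‖G l z‖ * |A| := by
          calc (1 : ℝ) = ‖∑ l, G l z * κ l z‖ := by rw [h1, norm_one]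
            _ ≤ ∑ l, ‖G l z * κ l z‖ := norm_sum_le _ _
            _ ≤ ∑ l, ‖G l z‖ * |A| := Finset.sum_le_sum fun l _ => by
              rw [norm_mul]
              exact mul_le_mul_of_nonneg_left ((hA.k2 l z hz hsm).trans (le_abs_self A))
                (norm_nonneg _)
        rw [← Finset.sum_mul] at h2
        have h3 : 1 / (|A| + 1) ≤ ∑ l, ‖G l z‖ := by
          rw [div_le_iff₀ hA1]
          nlinarith
        exact (min_le_right _ _).trans (h3.trans (by linarith))
      · push Not at hsm
        obtain ⟨j, hj⟩ := hsm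
        have h1 := Finset.single_le_sum (f := fun j => ‖f j z‖) (fun i _ => norm_nonneg _)
          (Finset.mem_univ j)
        exact (min_le_left _ _).trans (hj.trans (h1.trans (by linarith))))
    (by
      intro p hp
      refine ⟨ρ, C, hρ, ?_⟩
      rintro ⟨⟨f, G, κ⟩, hA, hf⟩
      refine h4 (M + L) C ρ p (Fin.append f G) (fun j => ?_) fun k => ?_
      · refine Fin.addCases (fun i => ?_) (fun i => ?_) j
        · simpa only [Fin.append_left] using hA.f1 i
        · simpa only [Fin.append_right] using hA.g1 i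
      · obtain ⟨g, h, hg, hh, hgh⟩ := hT p hp f G κ hA hf k
        refine ⟨Fin.append g h, fun j => ?_, fun z hz hz2 => ?_⟩
        · refine Fin.addCases (fun i => ?_) (fun i => ?_) j
          · simpa only [Fin.append_left] using hg i
          · simpa only [Fin.append_right] using hh i
        · obtain ⟨h1, h2, h3⟩ := hgh z hz hz2
          refine ⟨fun j => ?_, ?_⟩
          · refine Fin.addCases (fun i => ?_) (fun i => ?_) j
            · simpa only [Fin.append_left] using h1 i
            · simpa only [Fin.append_right] using h2 i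
          · simp only [Fin.sum_univ_add, Fin.append_left, Fin.append_right]
            exact h3)
  refine ⟨C', fun f G κ hA hf => ?_⟩
  obtain ⟨g, hg, hgz⟩ := hC' ⟨(f, G, κ), hA, hf⟩
  refine ⟨fun j => g (Fin.castAdd L j), fun l => g (Fin.natAdd M l), fun j => hg _, fun l => hg _,
    fun z hz => ⟨fun j => (hgz z hz).1 _, fun l => (hgz z hz).1 _, ?_⟩⟩
  have h1 := (hgz z hz).2
  simp only [Fin.sum_univ_add, Fin.append_left, Fin.append_right] at h1
  exact h1

end Pool.Agent.N290.RK
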