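import Mathlib
import Pool.Agent.N290.RK.All
import Pool.Agent.N290.RK.GLB
import Pool.Agent.N787.RK.LT
import Pool.Agent.N551.RK.GLP
import Pool.Agent.N681.RJ.EU

/-!
# Project RK: the final theorems on `E d`
-/

set_option autoImplicit false

namespace Pool.Agent.N290.RK

open Pool.Agent.N290.RJ

theorem b_GlB (d : ℕ) : GlB d := GlB_of' d (Pool.Agent.N787.RK.LT_of d (b_XC d) (b_SS d) (b_LAL d))
  (Pool.Agent.N787.RJ.D4N d) (a_LOC d)

theorem b_GlR (d : ℕ) : GlR d := Pool.Agent.N301.RK.GlR_of d (b_GlB d) Pool.Agent.N717.RI.e1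
  (a_SP d) (Pool.Agent.N681.RJ.EU d)

theorem b_GlC (d : ℕ) : GlC d := Pool.Agent.N359.RK.GlC_of d (b_GlR d)

theorem b_GlP (d : ℕ) : GlP d := Pool.Agent.N551.RK.GlP_of d (b_GlR d) (a_LOC d)

end Pool.Agent.N290.RK
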