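import Mathlib
import Pool.Agent.N290.RK.Stm4
import Pool.Agent.N290.RJ.Tr
import Pool.Agent.N247.RJ.T1

/-!
# Transfer of the final theorems to `Fin n → ℂ`
-/

set_option autoImplicit false

open Complex MeasureTheory Set Filter Topology
open scoped ENNReal

namespace Pool.Agent.N290.RK.Tr2

open Pool.Agent.N290.RJ Pool.Agent.N290.RJ.Tr

variable {d : ℕ}

/-- radial modulus on `ball n` -/
def HasMod {n : ℕ} (ω : ℝ → ℝ) (s : (Fin n → ℂ) → ℂ) : Prop :=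
  DifferentiableOn ℂ s (ball n) ∧
    ∀ z ∈ ball n, (1 - nrm z) * ‖fderiv ℂ s z z‖ ≤ ω (1 - nrm z)

/-- holomorphic, bounded by one -/
def UH {n : ℕ} (f : (Fin n → ℂ) → ℂ) : Prop :=
  DifferentiableOn ℂ f (ball n) ∧ ∀ z ∈ ball n, ‖f z‖ ≤ 1

theorem partA (h : GlC d) (M L : ℕ) (ε A : ℝ) (hε : 0 < ε) (W : ℝ → ℝ → ℝ)
    (hW : ∀ η : ℝ, 0 < η → SDM (W η)) :
    ∃ C : ℝ, ∀ (f : Fin M → (Fin (d + 1) → ℂ) → ℂ) (G κ : Fin L → (Fin (d + 1) → ℂ) → ℂ),
      (∀ j, UH (f j)) → (∀ l, UH (G l)) →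
      (∀ j, ∀ η : ℝ, 0 < η → ∃ s : (Fin (d + 1) → ℂ) → ℂ, HasMod (W η) s ∧
        ∀ z ∈ ball (d + 1), ‖f j z - s z‖ ≤ η) →
      (∀ l, DifferentiableOn ℂ (κ l) {z | z ∈ ball (d + 1) ∧ ∀ j, ‖f j z‖ < ε}) →
      (∀ z ∈ ball (d + 1), (∀ j, ‖f j z‖ < ε) →
        (∀ l, ‖κ l z‖ ≤ A) ∧ ∑ l, G l z * κ l z = 1) →
      ∃ (g : Fin M → (Fin (d + 1) → ℂ) → ℂ) (h : Fin L → (Fin (d + 1) → ℂ) → ℂ),
        (∀ j, DifferentiableOn ℂ (g j) (ball (d + 1))) ∧
        (∀ l, DifferentiableOn ℂ (h l) (ball (d + 1))) ∧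
        ∀ z ∈ ball (d + 1), (∀ j, ‖g j z‖ ≤ C) ∧ (∀ l, ‖h l z‖ ≤ C) ∧
          ∑ j, f j z * g j z + ∑ l, G l z * h l z = 1 := by
  obtain ⟨T, h0, h1, -⟩ := Pool.Agent.N247.RJ.T1 d
  have hmem := mem_T h0 h1
  have hmem' := mem_T' h0 h1
  obtain ⟨C, hC⟩ := h M L ε A W hε hW
  refine ⟨C, fun f G κ hf hG hs hκ1 hκ2 => ?_⟩
  obtain ⟨g, k, hg, hk, hgk⟩ := hC (fun j z => f j (T z)) (fun l z => G l (T z))
    (fun l z => κ l (T z))
    ⟨fun j => hol_T h0 h1 (hf j).1, fun j z hz => (hf j).2 _ ((hmem z).2 hz),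
      fun l => hol_T h0 h1 (hG l).1, fun l z hz => (hG l).2 _ ((hmem z).2 hz),
      fun l => (hκ1 l).comp T.differentiable.differentiableOn fun z hz =>
        ⟨(hmem z).2 hz.1, hz.2⟩,
      fun l z hz hz2 => (hκ2 _ ((hmem z).2 hz) hz2).1 l,
      fun z hz hz2 => (hκ2 _ ((hmem z).2 hz) hz2).2⟩
    (fun j η hη => by
      obtain ⟨s, ⟨hs1, hs2⟩, hfs⟩ := hs j η hη
      refine ⟨fun z => s (T z), hol_T h0 h1 hs1, fun z hz => ?_,
        fun z hz => hfs _ ((hmem z).2 hz)⟩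
      rw [fd_T h0 h1 hs1 hz, ← nm_T h0 h1]
      exact hs2 _ ((hmem z).2 hz))
  refine ⟨fun j z => g j (T.symm z), fun l z => k l (T.symm z), fun j => hol_T' h0 h1 (hg j),
    fun l => hol_T' h0 h1 (hk l), fun z hz => ?_⟩
  have h2 := hgk _ ((hmem' z).2 hz)
  simp only [T.apply_symm_apply] at h2
  exact h2

/-- near `p`, `f` is uniformly approximable by bounded functions with square Dini radial modulus -/
def LA {n : ℕ} (p : Fin n → ℂ) (f : (Fin n → ℂ) → ℂ) : Prop :=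
  ∀ η : ℝ, 0 < η → ∃ (s : (Fin n → ℂ) → ℂ) (ω : ℝ → ℝ) (b r : ℝ), SDM ω ∧ 0 < r ∧
    HasMod ω s ∧ (∀ z ∈ ball n, ‖s z‖ ≤ b) ∧
    ∀ z ∈ ball n, nrm (z - p) < r → ‖f z - s z‖ ≤ η

theorem partB (h : GlP d) (M : ℕ) (δ : ℝ) (hδ : 0 < δ) (F : Fin M → (Fin (d + 1) → ℂ) → ℂ)
    (hF : ∀ j, UH (F j)) (hlow : ∀ z ∈ ball (d + 1), δ ≤ ∑ j, ‖F j z‖)
    (hloc : ∀ p : Fin (d + 1) → ℂ, nrm p = 1 → ∃ (J : Finset (Fin M)) (ε A : ℝ), 0 < ε ∧
      (∀ j ∈ J, LA p (F j)) ∧ ∃ κ : Fin M → (Fin (d + 1) → ℂ) → ℂ,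
        (∀ l, DifferentiableOn ℂ (κ l)
          {z | z ∈ ball (d + 1) ∧ nrm (z - p) < ε ∧ ∀ j ∈ J, ‖F j z‖ < ε}) ∧
        ∀ z ∈ ball (d + 1), nrm (z - p) < ε → (∀ j ∈ J, ‖F j z‖ < ε) →
          (∀ l, ‖κ l z‖ ≤ A) ∧ ∑ l ∈ Jᶜ, F l z * κ l z = 1) :
    ∃ (g : Fin M → (Fin (d + 1) → ℂ) → ℂ) (C : ℝ),
      (∀ j, DifferentiableOn ℂ (g j) (ball (d + 1))) ∧
      ∀ z ∈ ball (d + 1), (∀ j, ‖g j z‖ ≤ C) ∧ ∑ j, F j z * g j z = 1 := by
  obtain ⟨T, h0, h1, -⟩ := Pool.Agent.N247.RJ.T1 d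
  have hmem := mem_T h0 h1
  have hmem' := mem_T' h0 h1
  obtain ⟨C, hC⟩ := h M δ Unit (fun _ j z => F j (T z)) hδ
    (fun _ j => hol_T h0 h1 (hF j).1) (fun _ j z hz => (hF j).2 _ ((hmem z).2 hz))
    (fun _ z hz => hlow _ ((hmem z).2 hz))
    (fun p hp => by
      have hp1 : nrm (T p) = 1 := by
        rw [nm_T h0 h1, nm, hp, Real.sqrt_one]
      obtain ⟨J, ε, A, hε, hJ, κ, hκ1, hκ2⟩ := hloc (T p) hp1
      have hsub : ∀ z : E d, nrm (T z - T p) = nm (z - p) := by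
        intro z
        rw [← map_sub, nm_T h0 h1]
      -- choose the approximants
      choose! s ω b r hω hr hs hb hfs using hJ
      refine ⟨J, ε, A, fun η t => ∑ j : Fin M, if j ∈ J ∧ 0 < η then ω j η t else 0,
        fun η => ∑ j : Fin M, if j ∈ J then |b j η| else 0,
        fun η => if hJn : J.Nonempty then J.inf' hJn fun j => r j η else 1, hε,
        fun η hη => ⟨?_, ?_⟩, fun _ => ⟨fun j hj η hη => ?_, ?_⟩⟩
      · have h2 := SDM.sum (M := M) (ω := fun j t => if j ∈ J ∧ 0 < η then ω j η t else 0)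
          (fun j => by
            by_cases hj : j ∈ J
            · simpa only [hj, hη, and_self, if_true] using hω j hj η hη
            · simpa only [hj, false_and, if_false] using sdm_zero) (A := 1) le_rfl
        simpa only [div_one] using h2
      · split_ifs with hJn
        · rw [Finset.lt_inf'_iff]
          exact fun j hj => hr j hj η hη
        · exact one_pos
      · have hJn : J.Nonempty := ⟨j, hj⟩
        refine ⟨fun z => s j η (T z), hol_T h0 h1 (hs j hj η hη).1, fun z hz => ?_,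
          fun z hz => ?_, fun z hz hz2 => ?_⟩
        · refine ((hb j hj η hη) _ ((hmem z).2 hz)).trans ((le_abs_self _).trans ?_)
          have h2 := Finset.single_le_sum (f := fun j => if j ∈ J then |b j η| else 0)
            (fun i _ => by split_ifs <;> positivity) (Finset.mem_univ j)
          simpa only [hj, if_true] using h2
        · rw [fd_T h0 h1 (hs j hj η hη).1 hz, ← nm_T h0 h1]
          refine ((hs j hj η hη).2 _ ((hmem z).2 hz)).trans ?_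
          have h2 := Finset.single_le_sum
            (f := fun j => if j ∈ J ∧ 0 < η then ω j η (1 - nrm (T z)) else 0)
            (fun i _ => by
              split_ifs with hi
              · exact (hω i hi.1 η hη).2.1 _
              · exact le_rfl) (Finset.mem_univ j)
          simpa only [hj, hη, and_self, if_true] using h2
        · refine hfs j hj η hη _ ((hmem z).2 hz) ?_
          rw [hsub]
          refine lt_of_lt_of_le hz2 ?_
          simp only [dif_pos hJn]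
          exact Finset.inf'_le _ hj
      · refine ⟨fun l z => κ l (T z), fun l => (hκ1 l).comp
          T.differentiable.differentiableOn fun z hz => ⟨(hmem z).2 hz.1, ?_, hz.2.2⟩,
          fun z hz hz2 hz3 => hκ2 _ ((hmem z).2 hz) ?_ hz3⟩
        · rw [hsub]; exact hz.2.1
        · rw [hsub]; exact hz2)
  obtain ⟨g, hg1, hg2⟩ := hC ()
  refine ⟨fun j z => g j (T.symm z), C, fun j => hol_T' h0 h1 (hg1 j), fun z hz => ?_⟩
  have h2 := hg2 _ ((hmem' z).2 hz)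
  simp only [T.apply_symm_apply] at h2
  exact h2

end Pool.Agent.N290.RK.Tr2
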